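import Pool.Agent.Run7.h404.FL.Iface
import Pool.Agent.Run7.h255.OQ.HC

/-!
Pieces B2 and CS of the project FL of helper404 (MP_74810d_gt).
-/

set_option autoImplicit false

namespace Run7.h255.FL

open Metric Set Filter Topology Run7.h404.FL

/-- Piece B2, no hypotheses. -/
theorem t_B2 : S_B2 := by
  intro a ha R
  obtain ⟨δ, hδ, Hδ⟩ := Run7.h255.OQHC.unif (isCompact_closedBall (0 : E5) R)
    (Run7.h255.OQHC.Z2 a) (fun W W' h hs => h.mono hs) (fun x _ => by
      obtain ⟨U, hU, h⟩ := ha x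
      exact ⟨U, hU, h⟩)
  obtain ⟨b, hb⟩ := Run7.h255.OQHC.poin2 (convex_ball (0 : E5) R) isBounded_ball a δ hδ
    (fun x hx => (Hδ x (ball_subset_closedBall hx)).mono inter_subset_left)
  refine ⟨b, fun x hx => ⟨ball x (δ / 6) ∩ ball 0 R,
    Filter.inter_mem (ball_mem_nhds _ (by positivity))
      (isOpen_ball.mem_nhds (by rwa [mem_ball_zero_iff])), ?_⟩⟩
  intro y hy z hz w hw
  have h2 := mem_ball.1 hy.1
  have h3 := mem_ball.1 hz.1
  have h4 := mem_ball.1 hw.1
  have h5 := dist_triangle_right y z x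
  have h6 := dist_triangle_right y w x
  have := hb y hy.2 z hz.2 w hw.2 (by linarith) (by linarith)
  simp only [dd]
  linarith

/-- Piece CS, uses NEAR only. -/
theorem t_CS (hN : S_NEAR) : S_CS := by
  intro Q _ _ Φ p hF a ha hA hv
  obtain ⟨-, -, -, h4⟩ := hN Q Φ p hF
  have hopen : IsOpen {q : Q | Z2 a q} := by
    rw [isOpen_iff_mem_nhds]
    rintro q ⟨U, hU, h⟩
    obtain ⟨V, hVU, hVo, hqV⟩ := _root_.mem_nhds_iff.1 hU
    refine Filter.mem_of_superset (hVo.mem_nhds hqV) ?_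
    intro q' hq'
    exact ⟨V, hVo.mem_nhds hq', fun y hy z hz w hw => h y (hVU hy) z (hVU hz) w (hVU hw)⟩
  have hK : IsCompact (p ⁻¹' {q : Q | Z2 a q}ᶜ) := by
    refine h4 _ hopen.isClosed_compl ?_
    intro q hq
    by_contra hcon
    exact hq (hv q hcon)
  have hcl : ∀ x : E5, ∃ W ∈ 𝓝 x,
      Run7.h255.OQHC.Z2 (fun y z w => a (p y) (p z) (p w)) W := by
    intro x
    obtain ⟨U, hU, h⟩ := ha (p x)
    refine ⟨p ⁻¹' U, hF.pcont.continuousAt.preimage_mem_nhds hU, ?_⟩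
    intro y hy z hz w hw v hv
    exact h _ hy _ hz _ hw _ hv
  obtain ⟨ω, hω, ρ, hρ⟩ := Run7.h255.OQHC.HC2 (n := 5) (by norm_num)
    (fun y z w => a (p y) (p z) (p w)) hcl _ hK (by
      intro x hx
      have hx' : Z2 a (p x) := by
        by_contra hcon
        exact hx hcon
      obtain ⟨U, hU, h⟩ := hx'
      refine ⟨p ⁻¹' U, hF.pcont.continuousAt.preimage_mem_nhds hU, ?_⟩
      intro y hy z hz w hw
      exact h _ hy _ hz _ hw)
  refine ⟨ω, ha, hA, hv, ?_, closedBall 0 ρ, isCompact_closedBall _ _, ?_⟩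
  · intro x
    obtain ⟨W, hW, h⟩ := hω x
    refine ⟨W, hW, fun y hy z hz w hw => ?_⟩
    have := h y hy z hz w hw
    simp only [dd]
    linarith
  · intro x hx
    have hx' : ρ ≤ ‖x‖ := by
      rw [mem_closedBall_zero_iff] at hx
      linarith
    obtain ⟨W, hW, h⟩ := hρ x hx'
    exact ⟨W, hW, h⟩

end Run7.h255.FL
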